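import Pool.Agent.H174.GP.StG

/-!
# Project GP: the Gaussian process has the same exponent
-/

open MeasureTheory ProbabilityTheory Finset Filter Topology

namespace Pool.Agent.H120.GP174

open Pool.Agent.H174.GP

theorem Ch_eq (ω : ℕ → ℝ) (L x : ℕ) :
    Ch ω L x = ∑ j ∈ Finset.Icc 1 L, ((min j x : ℕ) : ℝ) * (ω j / (j : ℝ)) := rfl

theorem Ch_meas (L x : ℕ) : Measurable (fun ω : ℕ → ℝ => Ch ω L x) := by
  simp only [Ch_eq]
  refine Finset.measurable_fun_sum _ fun j _ => ?_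
  exact ((measurable_pi_apply j).div_const _).const_mul _

theorem set_meas (L : ℕ) (X : Finset ℕ) : MeasurableSet {ω : ℕ → ℝ | ∀ x ∈ X, 0 ≤ Ch ω L x} := by
  have h : {ω : ℕ → ℝ | ∀ x ∈ X, 0 ≤ Ch ω L x} = ⋂ x ∈ X, {ω : ℕ → ℝ | 0 ≤ Ch ω L x} := by
    ext ω
    simp
  rw [h]
  exact Finset.measurableSet_biInter X fun x _ => measurableSet_le measurable_const (Ch_meas L x)

theorem set_dep (L : ℕ) (X : Finset ℕ) :
    DepOn (Finset.Icc 1 L) {ω : ℕ → ℝ | ∀ x ∈ X, 0 ≤ Ch ω L x} := by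
  intro ω ω' h hω x hx
  have h1 : Ch ω' L x = Ch ω L x := by
    rw [Ch_eq, Ch_eq]
    exact Finset.sum_congr rfl fun j hj => by rw [h j hj]
  rw [h1]
  exact hω x hx

theorem set_up (L : ℕ) (X : Finset ℕ) : IsUpperSet {ω : ℕ → ℝ | ∀ x ∈ X, 0 ≤ Ch ω L x} := by
  intro ω ω' h hω x hx
  refine (hω x hx).trans ?_
  rw [Ch_eq, Ch_eq]
  exact Finset.sum_le_sum fun j _ => mul_le_mul_of_nonneg_left
    (div_le_div_of_nonneg_right (h j) (Nat.cast_nonneg _)) (Nat.cast_nonneg _)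

theorem harris2 (h6 : S_harrisN) (n x0 : ℕ) :
    PP.real {ω | ∀ x ∈ Finset.Icc 1 x0, 0 ≤ Ch ω n x} *
      PP.real {ω | ∀ x ∈ Finset.Icc x0 n, 0 ≤ Ch ω n x} ≤ uu n := by
  have h := h6 (Finset.Icc 1 n) (Finset.range 2)
    (fun i => {ω | ∀ x ∈ (if i = 0 then Finset.Icc 1 x0 else Finset.Icc x0 n), 0 ≤ Ch ω n x})
    (fun i _ => set_meas n _) (fun i _ => set_dep n _) (fun i _ => set_up n _)
  rw [Finset.prod_range_succ, Finset.prod_range_one] at h
  rw [if_pos rfl, if_neg one_ne_zero] at h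
  refine h.trans ?_
  unfold uu
  refine measureReal_mono ?_
  intro ω hω x hx
  have hx' := Finset.mem_Icc.mp hx
  rw [Set.mem_iInter₂] at hω
  rcases le_total x x0 with h1 | h1
  · have h2 := hω 0 (Finset.mem_range.mpr (by norm_num)) x
    rw [if_pos rfl] at h2
    exact h2 (Finset.mem_Icc.mpr ⟨hx'.1, h1⟩)
  · have h2 := hω 1 (Finset.mem_range.mpr (by norm_num)) x
    rw [if_neg one_ne_zero] at h2
    exact h2 (Finset.mem_Icc.mpr ⟨h1, hx'.2⟩)

theorem chain (h1 : S_gcmp) (h2 : S_clt) (h4 : S_shiftC) (n x0 : ℕ) (A ε : ℝ) (hn : 2 ≤ n)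
    (hx0 : 1 ≤ x0) (hA : 0 ≤ A) (hε : 0 < ε) (hε1 : ε ≤ 1)
    (hl : 1 ≤ 2 * (A + 1) * Real.log n)
    (hx : (41 * (2 * (A + 1) * Real.log n) ^ (3 / 2 : ℝ) / (ε / 4)) ^ 4 ≤ x0) :
    (uu n) ^ (1 + ε) * Real.exp (-(ε / 4 * (1 + Real.log n))) ≤
      GA.real {z | ∀ x ∈ Finset.Icc x0 n, 0 ≤ Ch z n x} + 41 * (n : ℝ) ^ (-A) ∧
    ∃ P : ℝ, 0 ≤ P ∧ vG n ≤ P + 41 * (n : ℝ) ^ (-A) ∧
      P ^ (1 + ε) * Real.exp (-(ε / 4 * (1 + Real.log n))) ≤
        PP.real {ω | ∀ x ∈ Finset.Icc x0 n, 0 ≤ Ch ω n x} := by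
  have hn0 : (0 : ℝ) < n := by exact_mod_cast (show 0 < n by omega)
  obtain ⟨K, hK, k1, k2⟩ := h2 n x0 ((n : ℝ) ^ (-A)) (Real.rpow_pos_of_pos hn0 _)
  obtain ⟨g1, g2⟩ := h1 K n x0 A (ε / 4) hK hn hx0 hA (by positivity) hl hx
  have he : -((4 / ε) * ((ε / 4) ^ 2 * (1 + Real.log n))) = -(ε / 4 * (1 + Real.log n)) := by
    field_simp
  constructor
  · have s1 := h4 ε (ε / 4) n (Finset.Icc 1 n) (fun _ => 0) hε hε1 (by positivity) le_rfl (by omega)
      (Finset.Subset.refl _)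
    rw [he] at s1
    have s2 : PP.real {ω | ∀ x ∈ Finset.Icc 1 n, 0 + ε / 4 * Real.sqrt x ≤ Ch ω n x} ≤
        PP.real {ω | ∀ x ∈ Finset.Icc x0 n, ε / 4 * Real.sqrt x ≤ Ch ω n x} := by
      refine measureReal_mono ?_
      intro ω hω x hx
      have hx' := Finset.mem_Icc.mp hx
      have h5 := hω x (Finset.mem_Icc.mpr ⟨hx0.trans hx'.1, hx'.2⟩)
      rwa [zero_add] at h5
    have s3 : (uu n) ^ (1 + ε) * Real.exp (-(ε / 4 * (1 + Real.log n))) ≤ _ := s1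
    linarith
  · refine ⟨PP.real {ω | ∀ x ∈ Finset.Icc x0 n, -(ε / 4 * Real.sqrt x) ≤ Ch ω n x}, measureReal_nonneg, ?_, ?_⟩
    · have s1 : vG n ≤ GA.real {z | ∀ x ∈ Finset.Icc x0 n, -1 < Ch z n x} := by
        unfold vG
        refine measureReal_mono ?_
        intro z hz x hx
        have hx' := Finset.mem_Icc.mp hx
        have h5 := hz x (Finset.mem_Icc.mpr ⟨hx0.trans hx'.1, hx'.2⟩)
        linarith
      linarith
    · have s1 := h4 ε (ε / 4) n (Finset.Icc x0 n) (fun x => -(ε / 4 * Real.sqrt x)) hε hε1 (by positivity) le_rfl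
        (by omega) (Finset.Icc_subset_Icc hx0 le_rfl)
      rw [he] at s1
      refine s1.trans (le_of_eq ?_)
      congr 1
      ext ω
      refine forall_congr' fun x => forall_congr' fun _ => ?_
      rw [neg_add_cancel]

theorem x0_large (A ε η : ℝ) (hA : 0 ≤ A) (hε : 0 < ε) (hη : 0 < η) :
    ∀ᶠ n : ℕ in atTop, (41 * (2 * (A + 1) * Real.log n) ^ (3 / 2 : ℝ) / (ε / 4)) ^ 4 ≤ (n : ℝ) ^ η := by
  set D : ℝ := (41 / (ε / 4)) ^ 4 * (2 * (A + 1)) ^ 6 with hD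
  have hD0 : 0 < D := by positivity
  have h1 := (isLittleO_log_rpow_rpow_atTop 6 hη).bound (show 0 < 1 / D by positivity)
  have h2 := tendsto_natCast_atTop_atTop (R := ℝ) |>.eventually h1
  filter_upwards [h2, eventually_ge_atTop 1] with n hn hn1
  have hn1' : (1 : ℝ) ≤ n := by exact_mod_cast hn1
  have hl : 0 ≤ Real.log n := Real.log_nonneg hn1'
  rw [Real.norm_of_nonneg (by positivity), Real.norm_of_nonneg (by positivity)] at hn
  have h3 : Real.log n ^ (6 : ℝ) = Real.log n ^ 6 := by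
    rw [show (6 : ℝ) = ((6 : ℕ) : ℝ) by norm_num, Real.rpow_natCast]
  rw [h3] at hn
  have h4 : ((2 * (A + 1) * Real.log n) ^ (3 / 2 : ℝ)) ^ 4 = (2 * (A + 1)) ^ 6 * Real.log n ^ 6 := by
    rw [← Real.rpow_natCast ((2 * (A + 1) * Real.log n) ^ (3 / 2 : ℝ)) 4, ← Real.rpow_mul (by positivity)]
    rw [show (3 / 2 : ℝ) * ((4 : ℕ) : ℝ) = ((6 : ℕ) : ℝ) by norm_num, Real.rpow_natCast]
    ring
  calc (41 * (2 * (A + 1) * Real.log n) ^ (3 / 2 : ℝ) / (ε / 4)) ^ 4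
      = (41 / (ε / 4)) ^ 4 * ((2 * (A + 1) * Real.log n) ^ (3 / 2 : ℝ)) ^ 4 := by ring
    _ = D * Real.log n ^ 6 := by rw [h4, hD]; ring
    _ ≤ D * (1 / D * (n : ℝ) ^ η) := mul_le_mul_of_nonneg_left hn hD0.le
    _ = (n : ℝ) ^ η := by field_simp

theorem expo (c B Y : ℝ) (hc : 0 < c) :
    c * Real.exp B * (Real.exp (-Y) / 2) = Real.exp (Real.log c + B + -Y - Real.log 2) := by
  rw [Real.exp_sub, Real.exp_add, Real.exp_add, Real.exp_log hc, Real.exp_log (by norm_num)]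
  ring

/-- lower bound of `vG` -/
theorem fin_lo (l θ ε A κ c u w G X : ℝ) (hε : 0 < ε) (hε1 : ε ≤ 1) (hθ : 0 ≤ θ)
    (hκ : 0 < κ) (hc : 0 < c) (hu : 0 < u) (hA : A = 2 * θ + 4 + κ) (hl : 6 ≤ l)
    (hl2 : -Real.log c + (κ + 1) * Real.log 2 + ε / 4 ≤ ε / 4 * l)
    (hul : -Real.log u ≤ (θ + ε) * l) (hX : Real.exp (-(κ * Real.log 2) - ε / 4 * l) ≤ X)
    (hG : u ^ (1 + ε) * Real.exp (-(ε / 4 * (1 + l))) ≤ G + 41 * Real.exp (-(A * l)))
    (hw : c * X * G ≤ w) : 0 < w ∧ -Real.log w ≤ (θ + (θ + 3) * ε) * l := by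
  set Y : ℝ := (θ + ε) * (1 + ε) * l + ε / 4 * (1 + l) with hY
  have h1 : Real.exp (-Y) ≤ u ^ (1 + ε) * Real.exp (-(ε / 4 * (1 + l))) := by
    rw [Real.rpow_def_of_pos hu, ← Real.exp_add]
    refine Real.exp_le_exp.mpr ?_
    rw [hY]
    nlinarith
  have h82 : Real.log 82 ≤ 5 := by
    rw [Real.log_le_iff_le_exp (by norm_num)]
    have := Real.exp_one_gt_d9
    calc (82 : ℝ) ≤ (2.7182818283 : ℝ) ^ 5 := by norm_num
      _ ≤ Real.exp 1 ^ 5 := by gcongr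
      _ = Real.exp 5 := by rw [← Real.exp_nat_mul]; norm_num
  have h2 : 82 * Real.exp (-(A * l)) ≤ Real.exp (-Y) := by
    rw [show (82 : ℝ) = Real.exp (Real.log 82) by rw [Real.exp_log (by norm_num)], ← Real.exp_add]
    refine Real.exp_le_exp.mpr ?_
    rw [hY, hA]
    have e1 : ε * ε ≤ ε := by nlinarith
    have e2 : (θ + ε) * (1 + ε) ≤ 2 * θ + 2 := by nlinarith
    have e3 : (θ + ε) * (1 + ε) * l ≤ (2 * θ + 2) * l := mul_le_mul_of_nonneg_right e2 (by linarith)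
    have e4 : ε / 4 * (1 + l) ≤ 1 / 4 * (1 + l) := mul_le_mul_of_nonneg_right (by linarith) (by linarith)
    have e5 : 0 ≤ κ * l := by positivity
    nlinarith
  have h3 : Real.exp (-Y) / 2 ≤ G := by linarith
  have h4 : c * Real.exp (-(κ * Real.log 2) - ε / 4 * l) * (Real.exp (-Y) / 2) ≤ w := by
    refine le_trans ?_ hw
    have h5 : 0 ≤ Real.exp (-Y) / 2 := by positivity
    exact mul_le_mul (mul_le_mul_of_nonneg_left hX hc.le) h3 h5
      (mul_nonneg hc.le ((Real.exp_pos _).le.trans hX))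
  have h5 : c * Real.exp (-(κ * Real.log 2) - ε / 4 * l) * (Real.exp (-Y) / 2) =
      Real.exp (Real.log c + (-(κ * Real.log 2) - ε / 4 * l) + -Y - Real.log 2) := expo c _ Y hc
  rw [h5] at h4
  have hw0 : 0 < w := lt_of_lt_of_le (Real.exp_pos _) h4
  refine ⟨hw0, ?_⟩
  have h6 := (Real.le_log_iff_exp_le hw0).mpr h4
  have e6 : ε * ε * l ≤ ε * l := mul_le_mul_of_nonneg_right (by nlinarith) (by linarith)
  rw [hY] at h6
  nlinarith

/-- upper bound of `vG` -/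
theorem fin_up (l θ ε A κ c κ' c' u w P X Q : ℝ) (hε : 0 < ε) (hε1 : ε ≤ 1) (hθ : 0 ≤ θ)
    (_hκ : 0 < κ) (hc : 0 < c) (hc' : 0 < c') (hu : 0 < u) (hA : A = 2 * θ + 4 + κ) (hl : 0 < l)
    (hl2 : -Real.log c' + κ' * Real.log 2 + 2 * Real.log 2 + ε / 4 ≤ ε / 2 * l)
    (hl3 : Real.log 82 - Real.log c ≤ 4 * l) (hwl : c * Real.exp (-(κ * l)) ≤ w)
    (hul : (θ - ε) * l ≤ -Real.log u) (hX : Real.exp (-(κ' * Real.log 2) - ε / 4 * l) ≤ X)
    (hP : w ≤ P + 41 * Real.exp (-(A * l)))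
    (hQ : P ^ (1 + ε) * Real.exp (-(ε / 4 * (1 + l))) ≤ Q) (hw : c' * X * Q ≤ u) :
    (θ - (θ + 2) * ε) * l ≤ -Real.log w := by
  have hw0 : 0 < w := lt_of_lt_of_le (by positivity) hwl
  have h1 : 82 * Real.exp (-(A * l)) ≤ w := by
    refine le_trans ?_ hwl
    rw [show (82 : ℝ) = Real.exp (Real.log 82) by rw [Real.exp_log (by norm_num)], ← Real.exp_add,
      show c * Real.exp (-(κ * l)) = Real.exp (Real.log c + -(κ * l)) by rw [Real.exp_add, Real.exp_log hc]]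
    refine Real.exp_le_exp.mpr ?_
    rw [hA]
    have : 0 ≤ θ * l := by positivity
    nlinarith
  have h2 : w / 2 ≤ P := by linarith
  have h3 : (w / 2) ^ (1 + ε) ≤ P ^ (1 + ε) := Real.rpow_le_rpow (by positivity) h2 (by positivity)
  have h4 : c' * Real.exp (-(κ' * Real.log 2) - ε / 4 * l) *
      ((w / 2) ^ (1 + ε) * Real.exp (-(ε / 4 * (1 + l)))) ≤ u := by
    refine le_trans ?_ hw
    have h5 : 0 ≤ (w / 2) ^ (1 + ε) * Real.exp (-(ε / 4 * (1 + l))) := by positivity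
    exact mul_le_mul (mul_le_mul_of_nonneg_left hX hc'.le)
      ((mul_le_mul_of_nonneg_right h3 (Real.exp_pos _).le).trans hQ) h5
      (mul_nonneg hc'.le ((Real.exp_pos _).le.trans hX))
  rw [Real.rpow_def_of_pos (by positivity), Real.log_div hw0.ne' (by norm_num)] at h4
  have h5 : c' * Real.exp (-(κ' * Real.log 2) - ε / 4 * l) *
      (Real.exp ((Real.log w - Real.log 2) * (1 + ε)) * Real.exp (-(ε / 4 * (1 + l)))) =
      Real.exp (Real.log c' + (-(κ' * Real.log 2) - ε / 4 * l) + ((Real.log w - Real.log 2) * (1 + ε) +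
        -(ε / 4 * (1 + l)))) := by
    rw [Real.exp_add, Real.exp_add, Real.exp_log hc', Real.exp_add]
  rw [h5] at h4
  have h6 := (Real.le_log_iff_exp_le hu).mpr h4
  have h7 : 0 < Real.log 2 := Real.log_pos (by norm_num)
  have h8 : ε * Real.log 2 ≤ Real.log 2 := by nlinarith
  -- `(1 + ε) (-log w) ≥ (θ - 2 ε) l`
  have h9 : (θ - 2 * ε) * l ≤ (1 + ε) * -Real.log w := by nlinarith
  have h10 : (1 + ε) * ((θ - (θ + 2) * ε) * l) ≤ (θ - 2 * ε) * l := by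
    have h11 : 0 ≤ (θ + 2) * (ε * ε) * l := by positivity
    nlinarith
  exact le_of_mul_le_mul_left (h10.trans h9) (by linarith)

theorem X_low (n x0 : ℕ) (η κ ε : ℝ) (hn : 1 ≤ n) (hκ : 0 < κ) (hη : κ * η ≤ ε / 4) (_hη0 : 0 ≤ η)
    (hx0 : 1 ≤ x0) (hx : (x0 : ℝ) ≤ 2 * (n : ℝ) ^ η) :
    Real.exp (-(κ * Real.log 2) - ε / 4 * Real.log n) ≤ (x0 : ℝ) ^ (-κ) := by
  have hn0 : (0 : ℝ) < n := by exact_mod_cast (show 0 < n by omega)
  have hn1 : (1 : ℝ) ≤ n := by exact_mod_cast hn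
  have hx0' : (0 : ℝ) < x0 := by exact_mod_cast (show 0 < x0 by omega)
  rw [Real.rpow_def_of_pos hx0']
  refine Real.exp_le_exp.mpr ?_
  have h1 : Real.log x0 ≤ Real.log 2 + η * Real.log n := by
    have h2 := Real.log_le_log hx0' hx
    rwa [Real.log_mul (by norm_num) (Real.rpow_pos_of_pos hn0 _).ne', Real.log_rpow hn0] at h2
  have h3 := Real.log_nonneg hn1
  have h4 : κ * Real.log x0 ≤ κ * (Real.log 2 + η * Real.log n) := mul_le_mul_of_nonneg_left h1 hκ.le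
  have h5 : κ * η * Real.log n ≤ ε / 4 * Real.log n := mul_le_mul_of_nonneg_right hη h3
  linarith

theorem gp_gtheta (h1 : S_gcmp) (h2 : S_clt) (h3 : S_gstep) (h4 : S_shiftC) (h5 : S_step) (h6 : S_harrisN) :
    S_gtheta := by
  intro θ hθ
  obtain ⟨c, hc, κ, hκ, gs1, gs2⟩ := h3
  obtain ⟨c', hc', κ', hκ', -, -, st3, st4, st5⟩ := h5
  have hθ0 : 0 ≤ θ := by
    refine ge_of_tendsto hθ ?_
    filter_upwards [eventually_ge_atTop 1] with n hn
    refine div_nonneg ?_ (Real.log_nonneg (by exact_mod_cast hn))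
    have := Real.log_nonpos (show 0 ≤ uu n from measureReal_nonneg) (st5 n)
    linarith
  have main : ∀ ε : ℝ, 0 < ε → ε ≤ 1 → ∀ᶠ n : ℕ in atTop,
      |-Real.log (vG n) / Real.log n - θ| ≤ (θ + 3) * ε := by
    intro ε hε hε1
    set A : ℝ := 2 * θ + 4 + κ with hA
    set η : ℝ := min (1 / 2) (ε / (4 * (κ + κ'))) with hη
    have hη0 : 0 < η := lt_min (by norm_num) (by positivity)
    have hηκ : (κ + κ') * η ≤ ε / 4 := by
      calc (κ + κ') * η ≤ (κ + κ') * (ε / (4 * (κ + κ'))) :=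
            mul_le_mul_of_nonneg_left (min_le_right _ _) (by positivity)
        _ = ε / 4 := by field_simp
    have hη1 : κ * η ≤ ε / 4 := by nlinarith
    have hη2 : κ' * η ≤ ε / 4 := by nlinarith
    have hlog : Tendsto (fun n : ℕ => Real.log n) atTop atTop :=
      Real.tendsto_log_atTop.comp tendsto_natCast_atTop_atTop
    have t1 := hlog.eventually_ge_atTop 6
    have t2 := hlog.eventually_ge_atTop ((-Real.log c + (κ + 1) * Real.log 2 + ε / 4) / (ε / 4))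
    have t3 := hlog.eventually_ge_atTop ((-Real.log c' + κ' * Real.log 2 + 2 * Real.log 2 + ε / 4) / (ε / 2))
    have t4 := hlog.eventually_ge_atTop ((Real.log 82 - Real.log c) / 4)
    have t5 := x0_large A ε η (by positivity) hε hη0
    have t6 := (Metric.tendsto_nhds.mp hθ) ε hε
    filter_upwards [t1, t2, t3, t4, t5, t6, eventually_ge_atTop 4] with n t1 t2 t3 t4 t5 t6 hn
    rw [div_le_iff₀ (by positivity)] at t2 t3 t4
    have hn1 : (1 : ℝ) ≤ n := by exact_mod_cast (show 1 ≤ n by omega)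
    have hn4 : (4 : ℝ) ≤ n := by exact_mod_cast hn
    have hn0 : (0 : ℝ) < n := by linarith
    set l : ℝ := Real.log n with hl
    have hl0 : 0 < l := by linarith
    set x0 : ℕ := ⌈(n : ℝ) ^ η⌉₊ with hx0d
    have hnη : 1 ≤ (n : ℝ) ^ η := Real.one_le_rpow hn1 hη0.le
    have x1 : (n : ℝ) ^ η ≤ x0 := Nat.le_ceil _
    have x2 : (x0 : ℝ) ≤ 2 * (n : ℝ) ^ η := by
      have := Nat.ceil_lt_add_one (show 0 ≤ (n : ℝ) ^ η by positivity)
      linarith
    have x3 : 1 ≤ x0 := by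
      have : (1 : ℝ) ≤ x0 := hnη.trans x1
      exact_mod_cast this
    have x4 : x0 ≤ n := by
      have y1 : (n : ℝ) ^ η ≤ (n : ℝ) ^ (1 / 2 : ℝ) := Real.rpow_le_rpow_of_exponent_le hn1 (min_le_left _ _)
      rw [← Real.sqrt_eq_rpow] at y1
      have y2 := Real.sq_sqrt hn0.le
      have y3 : 2 ≤ Real.sqrt n := by
        rw [show (2 : ℝ) = Real.sqrt 4 by rw [show (4 : ℝ) = 2 ^ 2 by norm_num]; exact (Real.sqrt_sq (by norm_num)).symm]
        exact Real.sqrt_le_sqrt hn4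
      have y4 : (x0 : ℝ) ≤ n := by nlinarith
      exact_mod_cast y4
    have hrp : ∀ s : ℝ, (n : ℝ) ^ (-s) = Real.exp (-(s * l)) := by
      intro s
      rw [Real.rpow_def_of_pos hn0, hl]
      congr 1
      ring
    obtain ⟨b1, P, b2, b3, b4⟩ := chain h1 h2 h4 n x0 A ε (by omega) x3 (by positivity) hε hε1
      (by nlinarith) (t5.trans x1)
    rw [hrp] at b1 b3
    have hu0 : 0 < uu n := lt_of_lt_of_le (by positivity) (st4 n (by omega))
    rw [Real.dist_eq, abs_lt] at t6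
    have u1 : -Real.log (uu n) ≤ (θ + ε) * l := by
      have : -Real.log (uu n) / l ≤ θ + ε := by linarith [t6.2]
      rwa [div_le_iff₀ hl0] at this
    have u2 : (θ - ε) * l ≤ -Real.log (uu n) := by
      have : θ - ε ≤ -Real.log (uu n) / l := by linarith [t6.1]
      rwa [le_div_iff₀ hl0] at this
    obtain ⟨w0, w1⟩ := fin_lo l θ ε A κ c (uu n) (vG n) _ ((x0 : ℝ) ^ (-κ)) hε hε1 hθ0 hκ hc hu0 hA t1
      (by linarith) u1 (X_low n x0 η κ ε (by omega) hκ hη1 hη0.le x3 x2) b1 (gs1 x0 n x3 x4)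
    have w2 := fin_up l θ ε A κ c κ' c' (uu n) (vG n) P ((x0 : ℝ) ^ (-κ')) _ hε hε1 hθ0 hκ hc hc' hu0 hA hl0
      (by linarith) (by linarith) (by have := gs2 n (by omega); rwa [hrp] at this) u2
      (X_low n x0 η κ' ε (by omega) hκ' hη2 hη0.le x3 x2) b3 b4 (by
        have h7 := st3 1 x0 n le_rfl x3 x4
        have h8 : ((1 : ℕ) : ℝ) / (x0 : ℝ) = (x0 : ℝ)⁻¹ := by push_cast; rw [one_div]
        rw [h8, Real.inv_rpow (by positivity), ← Real.rpow_neg (by positivity)] at h7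
        exact (mul_le_mul_of_nonneg_right h7 measureReal_nonneg).trans (harris2 h6 n x0))
    rw [abs_le]
    constructor
    · rw [le_sub_iff_add_le, le_div_iff₀ hl0]
      have : 0 ≤ ε * l := by positivity
      nlinarith
    · rw [sub_le_iff_le_add, div_le_iff₀ hl0]
      nlinarith
  rw [Metric.tendsto_nhds]
  intro ρ hρ
  have hθ3 : 0 < θ + 3 := by linarith
  have hm := main (min 1 (ρ / (2 * (θ + 3)))) (lt_min one_pos (by positivity)) (min_le_left _ _)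
  filter_upwards [hm] with n hn
  rw [Real.dist_eq]
  refine lt_of_le_of_lt hn ?_
  calc (θ + 3) * min 1 (ρ / (2 * (θ + 3))) ≤ (θ + 3) * (ρ / (2 * (θ + 3))) :=
        mul_le_mul_of_nonneg_left (min_le_right _ _) hθ3.le
    _ = ρ / 2 := by field_simp
    _ < ρ := by linarith

end Pool.Agent.H120.GP174
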